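import Pool.Agent.Q236.XI.Main

set_option autoImplicit false

/-! The mapping index can be smaller than the cross-index of any given iterated barycentric
subdivision. -/

namespace Pool.Agent.Results.MP_172133_co.StrictForEverySubdivision

open Pool.Agent.Q236.XI

/-- For every nontrivial finite group `G` and every `r` there is a finite free `G`-simplicial
complex `K` with mapping index at most `1` for which the cross-index of the face poset of the
`r`-fold barycentric subdivision `sd^r K` equals `2`. -/
theorem result (G : Type) [Group G] [Finite G] [Nontrivial G] (r : ℕ) :
    ∃ K : GCplx G, K.Free ∧ ind K ≤ 1 ∧ Xind G (GCplx.sd^[r] K).F = 2 :=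
  main G r

end Pool.Agent.Results.MP_172133_co.StrictForEverySubdivision
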